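import Pool.Agent.Y957.MC.Spec4

/-!
Project MC (helper957, MP_4d8f14_an), job 3785: averages along `a p(v)` are controlled by averages over
intervals.
-/

set_option autoImplicit false

namespace Pool.Agent.Y274.MC

open MeasureTheory Filter
open Pool.Agent.Y957.MC

/-- growth: a function with derivative at least `c / x` tends to infinity -/
theorem tendsto_of_deriv {f f' : ℝ → ℝ} {c x₂ : ℝ} (hc : 0 < c) (hx₂ : 1 ≤ x₂)
    (hf : ∀ x, x₂ ≤ x → HasDerivAt f (f' x) x) (hb : ∀ x, x₂ ≤ x → c ≤ x * f' x) :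
    Tendsto f atTop atTop := by
  have hmono : MonotoneOn (fun x => f x - c * Real.log x) (Set.Ici x₂) := by
    have hdd : ∀ x, x₂ ≤ x → HasDerivAt (fun x => f x - c * Real.log x) (f' x - c * x⁻¹) x := by
      intro x hx
      have hx0 : x ≠ 0 := by linarith
      exact (hf x hx).sub ((Real.hasDerivAt_log hx0).const_mul c)
    apply monotoneOn_of_deriv_nonneg (convex_Ici x₂)
    · intro x hx
      exact (hdd x hx).continuousAt.continuousWithinAt
    · intro x hx
      rw [interior_Ici] at hx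
      exact (hdd x (le_of_lt hx)).differentiableAt.differentiableWithinAt
    · intro x hx
      rw [interior_Ici] at hx
      have hx' : x₂ ≤ x := le_of_lt hx
      rw [(hdd x hx').deriv]
      have hx0 : 0 < x := by linarith
      have := hb x hx'
      have h2 : c * x⁻¹ ≤ f' x := by
        rw [← div_eq_mul_inv, div_le_iff₀ hx0]
        linarith
      linarith
  have hlow : ∀ x, x₂ ≤ x → (f x₂ - c * Real.log x₂) + c * Real.log x ≤ f x := by
    intro x hx
    have := hmono (Set.mem_Ici.2 le_rfl) (Set.mem_Ici.2 hx) hx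
    simp only at this
    linarith
  have ht : Tendsto (fun x => (f x₂ - c * Real.log x₂) + c * Real.log x) atTop atTop :=
    tendsto_atTop_add_const_left _ _ (Real.tendsto_log_atTop.const_mul_atTop hc)
  exact tendsto_atTop_mono' atTop ((eventually_ge_atTop x₂).mono hlow) ht

theorem regc : S_REGC := by
  intro p hadm hpm
  obtain ⟨φ, d, x₀, ⟨hd, ⟨x₁, hder⟩, hlim⟩, hp⟩ := hadm
  have h0 := hlim 0
  have h1 := hlim 1
  simp only [pow_zero, one_mul, zero_add, pow_one, Nat.factorial_zero, Nat.cast_one] at h0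
  simp only [pow_one, Nat.factorial_one, Nat.cast_one, one_mul] at h1
  have e0 : ∀ᶠ x in atTop, d / 2 < x * φ 1 x := h0.eventually (lt_mem_nhds (by linarith))
  have e1 : ∀ᶠ x : ℝ in atTop, -1 * (x ^ (1 + 1) * φ (1 + 1) x) < 2 * d :=
    h1.eventually (gt_mem_nhds (by linarith))
  have e2 : ∀ᶠ x : ℝ in atTop, 0 < -1 * (x ^ (1 + 1) * φ (1 + 1) x) :=
    h1.eventually (lt_mem_nhds (by linarith))
  obtain ⟨x₂, hx₂⟩ := (((e0.and e1).and e2).and ((eventually_ge_atTop x₀).and
    ((eventually_ge_atTop x₁).and (eventually_ge_atTop (1 : ℝ))))).exists_forall_of_atTop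
  have hx₂1 : (1 : ℝ) ≤ x₂ := (hx₂ x₂ le_rfl).2.2.2
  have b1 : ∀ x, x₂ ≤ x → d / 2 ≤ x * φ 1 x := fun x hx => (hx₂ x hx).1.1.1.le
  have b2 : ∀ x, x₂ ≤ x → x ^ 2 * |φ 2 x| ≤ 2 * d := by
    intro x hx
    have ha := (hx₂ x hx).1.1.2
    have hb := (hx₂ x hx).1.2
    norm_num at ha hb
    have hxp : 0 < x ^ 2 := by
      have : 0 < x := by linarith
      positivity
    have hneg : φ 2 x < 0 := by
      by_contra hcon
      push Not at hcon
      have := mul_nonneg hxp.le hcon
      linarith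
    rw [abs_of_neg hneg]
    linarith
  have hφpos : ∀ x, x₂ ≤ x → 0 < φ 1 x := by
    intro x hx
    have hx0 : 0 < x := by linarith
    have := b1 x hx
    by_contra hcon
    push Not at hcon
    have := mul_nonpos_of_nonneg_of_nonpos hx0.le hcon
    linarith
  have hpexp : ∀ x, x₂ ≤ x → p x = Real.exp (φ 0 x) := by
    intro x hx
    have hh := hp x (hx₂ x hx).2.1
    rw [hh.2, Real.exp_log hh.1]
  have hder' : ∀ m x, x₂ ≤ x → HasDerivAt (φ m) (φ (m + 1) x) x := fun m x hx =>
    hder m x (hx₂ x hx).2.2.1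
  have hinf : Tendsto (φ 0) atTop atTop :=
    tendsto_of_deriv (by positivity : 0 < d / 2) hx₂1 (fun x hx => hder' 0 x hx) b1
  refine ⟨12 / d + 1, by positivity, ?_⟩
  intro a ha G hG hG1 L η hη hV ε hε
  obtain ⟨V₀, hV₀⟩ := (hV.and (eventually_ge_atTop (1 : ℝ))).exists_forall_of_atTop
  -- the primitive
  set H : ℝ → ℂ := fun w => G w - L with hH
  have hHc : Continuous H := hG.sub continuous_const
  set Ψ : ℝ → ℂ := fun w => ∫ s in (0 : ℝ)..w, H s with hΨ
  have hΨd : ∀ w, HasDerivAt Ψ (H w) w := fun w =>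
    intervalIntegral.integral_hasDerivAt_right (hHc.intervalIntegrable _ _)
      hHc.stronglyMeasurable.stronglyMeasurableAtFilter hHc.continuousAt
  have hΨb : ∀ w, V₀ ≤ w → ‖Ψ w‖ ≤ η * w := by
    intro w hw
    have hw1 : 1 ≤ w := (hV₀ w hw).2
    have hw0 : (w : ℂ) ≠ 0 := by
      have : w ≠ 0 := by linarith
      exact_mod_cast this
    have h3 := (hV₀ w hw).1
    have h4 : Ψ w = (w : ℂ) * ((1 / (w : ℂ)) * (∫ v in (0 : ℝ)..w, G v) - L) := by
      simp only [hΨ, hH]
      rw [intervalIntegral.integral_sub (hG.intervalIntegrable _ _) (by simp)]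
      simp only [intervalIntegral.integral_const, sub_zero, Complex.real_smul]
      field_simp
    rw [h4, norm_mul]
    have h5 : ‖(w : ℂ)‖ = w := by
      rw [Complex.norm_real, Real.norm_of_nonneg (by linarith)]
    rw [h5, mul_comm η w]
    exact mul_le_mul_of_nonneg_left h3 (by linarith)
  -- the point from which on `a p v ≥ V₀`
  have hinf2 : Tendsto (fun v => a * Real.exp (φ 0 v)) atTop atTop :=
    (Real.tendsto_exp_atTop.comp hinf).const_mul_atTop ha
  obtain ⟨x₃, hx₃⟩ := ((hinf2.eventually (eventually_ge_atTop V₀)).and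
    (eventually_ge_atTop x₂)).exists_forall_of_atTop
  have hx₃2 : x₂ ≤ x₃ := (hx₃ x₃ le_rfl).2
  have hx₃0 : 0 < x₃ := by linarith
  have hx₃V : ∀ v, x₃ ≤ v → V₀ ≤ a * Real.exp (φ 0 v) := fun v hv => (hx₃ v hv).1
  -- integrability
  have hHm : Measurable (fun v => H (a * p v)) := hHc.measurable.comp (hpm.const_mul a)
  have hHb : ∀ w, ‖H w‖ ≤ 1 + ‖L‖ := fun w =>
    (norm_sub_le _ _).trans (by linarith [hG1 w])
  have hHi : ∀ α β : ℝ, IntervalIntegrable (fun v => H (a * p v)) volume α β := by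
    intro α β
    refine (intervalIntegrable_const (c := 1 + ‖L‖)).mono_fun hHm.aestronglyMeasurable ?_
    refine Filter.Eventually.of_forall fun v => ?_
    simp only
    rw [Real.norm_of_nonneg (by positivity)]
    exact hHb _
  have hGm : Measurable (fun v => G (a * p v)) := hG.measurable.comp (hpm.const_mul a)
  have hGi : ∀ α β : ℝ, IntervalIntegrable (fun v => G (a * p v)) volume α β := by
    intro α β
    refine (intervalIntegrable_const (c := (1 : ℝ))).mono_fun hGm.aestronglyMeasurable ?_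
    refine Filter.Eventually.of_forall fun v => ?_
    simp only [norm_one]
    exact hG1 _
  -- the main bound
  have hmain : ∀ N : ℝ, x₃ ≤ N → ‖∫ v in x₃..N, H (a * p v)‖ ≤ (12 / d + 1) * η * N := by
    intro N hN
    set u : ℝ → ℝ := fun v => (a * Real.exp (φ 0 v) * φ 1 v)⁻¹ with hu
    set u' : ℝ → ℝ := fun v => -((φ 1 v) ^ 2 + φ 2 v) / (a * Real.exp (φ 0 v) * (φ 1 v) ^ 2) with hu'
    have hud : ∀ v, x₃ ≤ v → HasDerivAt u (u' v) v := by
      intro v hv
      have hv2 : x₂ ≤ v := hx₃2.trans hv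
      have hpos := hφpos v hv2
      have hq : HasDerivAt (fun v => a * Real.exp (φ 0 v) * φ 1 v)
          (a * (Real.exp (φ 0 v) * φ 1 v) * φ 1 v + a * Real.exp (φ 0 v) * φ 2 v) v :=
        (((hder' 0 v hv2).exp.const_mul a).mul (hder' 1 v hv2))
      have hne : a * Real.exp (φ 0 v) * φ 1 v ≠ 0 := by positivity
      have hq' : HasDerivAt u (-(a * (Real.exp (φ 0 v) * φ 1 v) * φ 1 v + a * Real.exp (φ 0 v) * φ 2 v) /
          (a * Real.exp (φ 0 v) * φ 1 v) ^ 2) v := hq.inv hne
      have he : Real.exp (φ 0 v) ≠ 0 := (Real.exp_pos _).ne'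
      have hpe : φ 1 v ≠ 0 := hpos.ne'
      have hval : u' v = -(a * (Real.exp (φ 0 v) * φ 1 v) * φ 1 v + a * Real.exp (φ 0 v) * φ 2 v) /
          (a * Real.exp (φ 0 v) * φ 1 v) ^ 2 := by
        simp only [hu']
        rw [div_eq_div_iff (by positivity) (by positivity)]
        ring
      rw [hval]
      exact hq'
    have hWd : ∀ v, x₃ ≤ v → HasDerivAt (fun v => Ψ (a * Real.exp (φ 0 v)))
        (((a * (Real.exp (φ 0 v) * φ 1 v) : ℝ)) • H (a * Real.exp (φ 0 v))) v := by
      intro v hv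
      have hv2 : x₂ ≤ v := hx₃2.trans hv
      exact (hΨd (a * Real.exp (φ 0 v))).scomp v ((hder' 0 v hv2).exp.const_mul a)
    have hFd : ∀ v, x₃ ≤ v → HasDerivAt (fun v => u v • Ψ (a * Real.exp (φ 0 v)))
        (u v • (((a * (Real.exp (φ 0 v) * φ 1 v) : ℝ)) • H (a * Real.exp (φ 0 v))) +
          u' v • Ψ (a * Real.exp (φ 0 v))) v := by
      intro v hv
      exact (hud v hv).smul (hWd v hv)
    have hFd' : ∀ v, x₃ ≤ v → HasDerivAt (fun v => u v • Ψ (a * Real.exp (φ 0 v)))
        (H (a * p v) + u' v • Ψ (a * Real.exp (φ 0 v))) v := by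
      intro v hv
      have hv2 : x₂ ≤ v := hx₃2.trans hv
      have hpos := hφpos v hv2
      have := hFd v hv
      rw [smul_smul] at this
      have he : u v * (a * (Real.exp (φ 0 v) * φ 1 v)) = 1 := by
        simp only [hu]
        rw [← mul_assoc a, inv_mul_cancel₀ (by positivity)]
      rw [he, one_smul, ← hpexp v hv2] at this
      simpa only [← hpexp v hv2] using this
    have hcφ : ∀ m, ContinuousOn (φ m) (Set.uIcc x₃ N) := by
      intro m v hv
      rw [Set.uIcc_of_le hN] at hv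
      exact (hder' m v (hx₃2.trans hv.1)).continuousAt.continuousWithinAt
    have hΨc : Continuous Ψ := continuous_iff_continuousAt.2 fun w => (hΨd w).continuousAt
    have hcu' : ContinuousOn u' (Set.uIcc x₃ N) := by
      simp only [hu']
      refine ContinuousOn.div (((hcφ 1).pow 2).add (hcφ 2)).neg ?_ ?_
      · exact (continuousOn_const.mul (Real.continuous_exp.comp_continuousOn (hcφ 0))).mul ((hcφ 1).pow 2)
      · intro v hv
        rw [Set.uIcc_of_le hN] at hv
        have := hφpos v (hx₃2.trans hv.1)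
        positivity
    have hcW : ContinuousOn (fun v => Ψ (a * Real.exp (φ 0 v))) (Set.uIcc x₃ N) :=
      hΨc.comp_continuousOn (continuousOn_const.mul (Real.continuous_exp.comp_continuousOn (hcφ 0)))
    have hiW : IntervalIntegrable (fun v => u' v • Ψ (a * Real.exp (φ 0 v))) volume x₃ N :=
      (hcu'.smul hcW).intervalIntegrable
    have hFTC := intervalIntegral.integral_eq_sub_of_hasDerivAt
      (f := fun v => u v • Ψ (a * Real.exp (φ 0 v)))
      (f' := fun v => H (a * p v) + u' v • Ψ (a * Real.exp (φ 0 v))) (a := x₃) (b := N)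
      (fun v hv => by
        rw [Set.uIcc_of_le hN] at hv
        exact hFd' v hv.1) ((hHi x₃ N).add hiW)
    rw [intervalIntegral.integral_add (hHi x₃ N) hiW] at hFTC
    have hub : ∀ v, x₃ ≤ v → ‖u v • Ψ (a * Real.exp (φ 0 v))‖ ≤ η * (2 * v / d) := by
      intro v hv
      have hv2 : x₂ ≤ v := hx₃2.trans hv
      have hv0 : 0 < v := by linarith
      have hpos := hφpos v hv2
      have hu0 : 0 < u v := by
        simp only [hu]
        positivity
      rw [norm_smul, Real.norm_of_nonneg hu0.le]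
      calc u v * ‖Ψ (a * Real.exp (φ 0 v))‖ ≤ u v * (η * (a * Real.exp (φ 0 v))) :=
            mul_le_mul_of_nonneg_left (hΨb _ (hx₃V v hv)) hu0.le
        _ = η * (φ 1 v)⁻¹ := by
            simp only [hu]
            have he : Real.exp (φ 0 v) ≠ 0 := (Real.exp_pos _).ne'
            field_simp
        _ ≤ η * (2 * v / d) := by
            refine mul_le_mul_of_nonneg_left ?_ hη
            rw [inv_eq_one_div, div_le_div_iff₀ hpos hd]
            have := b1 v hv2
            nlinarith
    have hib : ‖∫ v in x₃..N, u' v • Ψ (a * Real.exp (φ 0 v))‖ ≤ (η * (1 + 8 / d)) * |N - x₃| := by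
      apply intervalIntegral.norm_integral_le_of_norm_le_const
      intro v hv
      rw [Set.uIoc_of_le hN] at hv
      have hv3 : x₃ ≤ v := hv.1.le
      have hv2 : x₂ ≤ v := hx₃2.trans hv3
      have hv0 : 0 < v := by linarith
      have hpos := hφpos v hv2
      rw [norm_smul]
      have hq : ‖u' v‖ ≤ (1 + 8 / d) / (a * Real.exp (φ 0 v)) := by
        simp only [hu']
        have hE : 0 < a * Real.exp (φ 0 v) := by positivity
        rw [Real.norm_eq_abs, abs_div, abs_neg, abs_of_pos (by positivity :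
          0 < a * Real.exp (φ 0 v) * (φ 1 v) ^ 2), div_le_div_iff₀ (by positivity) hE]
        have h6 : |(φ 1 v) ^ 2 + φ 2 v| ≤ (φ 1 v) ^ 2 * (1 + 8 / d) := by
          have h7 : |φ 2 v| ≤ (φ 1 v) ^ 2 * (8 / d) := by
            have h8 := b2 v hv2
            have h9 := b1 v hv2
            have h10 : (d / 2) ^ 2 ≤ (v * φ 1 v) ^ 2 := by
              apply pow_le_pow_left₀ (by positivity) h9
            have h11 : v ^ 2 * |φ 2 v| ≤ v ^ 2 * ((φ 1 v) ^ 2 * (8 / d)) := by
              calc v ^ 2 * |φ 2 v| ≤ 2 * d := h8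
                _ = (d / 2) ^ 2 * (8 / d) := by
                    field_simp
                    ring
                _ ≤ (v * φ 1 v) ^ 2 * (8 / d) := by
                    apply mul_le_mul_of_nonneg_right h10 (by positivity)
                _ = v ^ 2 * ((φ 1 v) ^ 2 * (8 / d)) := by ring
            exact le_of_mul_le_mul_left h11 (by positivity)
          calc |(φ 1 v) ^ 2 + φ 2 v| ≤ |(φ 1 v) ^ 2| + |φ 2 v| := abs_add_le _ _
            _ ≤ (φ 1 v) ^ 2 + (φ 1 v) ^ 2 * (8 / d) := by
                rw [abs_of_pos (by positivity : 0 < (φ 1 v) ^ 2)]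
                linarith
            _ = (φ 1 v) ^ 2 * (1 + 8 / d) := by ring
        calc |(φ 1 v) ^ 2 + φ 2 v| * (a * Real.exp (φ 0 v)) ≤
              ((φ 1 v) ^ 2 * (1 + 8 / d)) * (a * Real.exp (φ 0 v)) :=
              mul_le_mul_of_nonneg_right h6 hE.le
          _ = (1 + 8 / d) * (a * Real.exp (φ 0 v) * (φ 1 v) ^ 2) := by ring
      have hE : 0 < a * Real.exp (φ 0 v) := by positivity
      calc ‖u' v‖ * ‖Ψ (a * Real.exp (φ 0 v))‖ ≤
            ((1 + 8 / d) / (a * Real.exp (φ 0 v))) * (η * (a * Real.exp (φ 0 v))) :=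
            mul_le_mul hq (hΨb _ (hx₃V v hv3)) (norm_nonneg _) (by positivity)
        _ = η * (1 + 8 / d) := by
            field_simp
    have hN0 : 0 < N := by linarith
    have heq : ∫ v in x₃..N, H (a * p v) = (u N • Ψ (a * Real.exp (φ 0 N)) -
        u x₃ • Ψ (a * Real.exp (φ 0 x₃))) - ∫ v in x₃..N, u' v • Ψ (a * Real.exp (φ 0 v)) := by
      rw [← hFTC]
      ring
    rw [heq]
    have hab : |N - x₃| = N - x₃ := abs_of_nonneg (by linarith)
    rw [hab] at hib
    calc ‖(u N • Ψ (a * Real.exp (φ 0 N)) -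
        u x₃ • Ψ (a * Real.exp (φ 0 x₃))) - ∫ v in x₃..N, u' v • Ψ (a * Real.exp (φ 0 v))‖ ≤
        (‖u N • Ψ (a * Real.exp (φ 0 N))‖ + ‖u x₃ • Ψ (a * Real.exp (φ 0 x₃))‖) +
          ‖∫ v in x₃..N, u' v • Ψ (a * Real.exp (φ 0 v))‖ :=
          (norm_sub_le _ _).trans (add_le_add_left (norm_sub_le _ _) _)
      _ ≤ (η * (2 * N / d) + η * (2 * x₃ / d)) + (η * (1 + 8 / d)) * (N - x₃) := by
          linarith [hub N hN, hub x₃ le_rfl]
      _ ≤ (η * (2 * N / d) + η * (2 * N / d)) + (η * (1 + 8 / d)) * N := by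
          have h12 : η * (2 * x₃ / d) ≤ η * (2 * N / d) := by
            apply mul_le_mul_of_nonneg_left _ hη
            apply div_le_div_of_nonneg_right _ hd.le
            linarith
          have h13 : (η * (1 + 8 / d)) * (N - x₃) ≤ (η * (1 + 8 / d)) * N := by
            apply mul_le_mul_of_nonneg_left _ (by positivity)
            linarith
          linarith
      _ = (12 / d + 1) * η * N := by
          field_simp
          ring
  -- the end
  have hlim2 : Tendsto (fun N : ℕ => ((1 + ‖L‖) * x₃) / (N : ℝ)) atTop (nhds 0) :=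
    tendsto_const_div_atTop_nhds_zero_nat _
  filter_upwards [hlim2.eventually (gt_mem_nhds hε), eventually_ge_atTop (⌈x₃⌉₊ + 1)] with N hN1 hN2
  have hN3 : x₃ ≤ (N : ℝ) := by
    have : x₃ ≤ (⌈x₃⌉₊ : ℝ) := Nat.le_ceil _
    have h14 : ((⌈x₃⌉₊ + 1 : ℕ) : ℝ) ≤ (N : ℝ) := by exact_mod_cast hN2
    push_cast at h14
    linarith
  have hN0 : 0 < (N : ℝ) := by linarith
  have hNc : (N : ℂ) ≠ 0 := by
    have : (N : ℝ) ≠ 0 := hN0.ne'
    exact_mod_cast this
  have h15 : (1 / (N : ℂ)) * (∫ v in (0 : ℝ)..N, G (a * p v)) - L =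
      (1 / (N : ℂ)) * ((∫ v in (0 : ℝ)..x₃, H (a * p v)) + ∫ v in x₃..N, H (a * p v)) := by
    rw [intervalIntegral.integral_add_adjacent_intervals (hHi _ _) (hHi _ _)]
    simp only [hH]
    rw [intervalIntegral.integral_sub (hGi _ _) (by simp)]
    simp only [intervalIntegral.integral_const, sub_zero, Complex.real_smul, Complex.ofReal_natCast]
    field_simp
  rw [h15, norm_mul]
  have h16 : ‖(1 / (N : ℂ))‖ = 1 / (N : ℝ) := by
    rw [norm_div, norm_one, Complex.norm_natCast]
  rw [h16]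
  have h17 : ‖∫ v in (0 : ℝ)..x₃, H (a * p v)‖ ≤ (1 + ‖L‖) * x₃ := by
    have := intervalIntegral.norm_integral_le_of_norm_le_const (a := (0 : ℝ)) (b := x₃)
      (f := fun v => H (a * p v)) (C := 1 + ‖L‖) (fun v _ => hHb _)
    rwa [sub_zero, abs_of_pos hx₃0] at this
  calc 1 / (N : ℝ) * ‖(∫ v in (0 : ℝ)..x₃, H (a * p v)) + ∫ v in x₃..N, H (a * p v)‖ ≤
        1 / (N : ℝ) * ((1 + ‖L‖) * x₃ + (12 / d + 1) * η * N) := by
        apply mul_le_mul_of_nonneg_left _ (by positivity)
        exact (norm_add_le _ _).trans (add_le_add h17 (hmain N hN3))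
    _ = ((1 + ‖L‖) * x₃) / (N : ℝ) + (12 / d + 1) * η := by
        field_simp
    _ ≤ ε + (12 / d + 1) * η := by
        linarith

end Pool.Agent.Y274.MC
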